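import Pool.Agent.BEJ.Stmts

set_option autoImplicit false

/-! Squad BEJ (MP_be01ff_an), row DIO: density of the multiples of `4 π²` modulo `2`. -/

namespace Pool.Agent.BEJ.H69

open Pool.Agent.BEJ

theorem dio (pi2 : Pi2Stmt) : DioStmt := by
  intro ε N hε
  have hirr : Irrational (4 * Real.pi ^ 2 / 2) := by
    have e : 4 * Real.pi ^ 2 / 2 = ((2 : ℕ) : ℝ) * Real.pi ^ 2 := by push_cast; ring
    rw [e]
    exact Irrational.natCast_mul pi2 (by norm_num)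
  have hd : Dense (AddSubgroup.closure {4 * Real.pi ^ 2, 2} : Set ℝ) :=
    dense_addSubgroupClosure_pair_iff.2 hirr
  obtain ⟨z, hz, hz2⟩ := hd.exists_dist_lt (Real.pi ^ 2) (half_pos hε)
  rw [SetLike.mem_coe, AddSubgroup.mem_closure_pair] at hz
  obtain ⟨m, n, hmn⟩ := hz
  rw [← hmn, Real.dist_eq, zsmul_eq_mul, zsmul_eq_mul] at hz2
  -- Dirichlet
  obtain ⟨M, hM⟩ : ∃ M : ℕ, M = N + m.natAbs := ⟨_, rfl⟩
  obtain ⟨n0, hn0⟩ := exists_nat_gt (4 * (M : ℝ) / ε)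
  obtain ⟨q, hq0, -, hq⟩ := Real.exists_nat_abs_mul_sub_round_le (2 * Real.pi ^ 2)
    (Nat.succ_pos n0)
  obtain ⟨r, hr⟩ : ∃ r : ℤ, r = round ((q : ℝ) * (2 * Real.pi ^ 2)) := ⟨_, rfl⟩
  rw [← hr] at hq
  have hk : (N : ℤ) ≤ m + (q : ℤ) * M := by
    have h1 : -(m.natAbs : ℤ) ≤ m := by
      rw [Int.natCast_natAbs]
      exact neg_abs_le m
    have h2 : (M : ℤ) ≤ (q : ℤ) * M := by
      have : (1 : ℤ) ≤ q := by exact_mod_cast hq0
      nlinarith [Int.natCast_nonneg M]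
    have h3 : (M : ℤ) = N + m.natAbs := by exact_mod_cast hM
    linarith
  have hk0 : 0 ≤ m + (q : ℤ) * M := le_trans (Int.natCast_nonneg N) hk
  obtain ⟨k, hkk⟩ := Int.eq_ofNat_of_zero_le hk0
  refine ⟨k, -n + r * M, ?_, ?_⟩
  · rw [hkk] at hk
    exact_mod_cast hk
  · have hkR : (k : ℝ) = m + q * M := by
      have : ((m + (q : ℤ) * M : ℤ) : ℝ) = ((k : ℤ) : ℝ) := by rw [hkk]
      push_cast at this
      exact this.symm
    have e : 4 * Real.pi ^ 2 * (k : ℝ) - Real.pi ^ 2 - 2 * (((-n + r * M : ℤ)) : ℝ) =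
        -(Real.pi ^ 2 - ((m : ℝ) * (4 * Real.pi ^ 2) + (n : ℝ) * 2)) +
          2 * M * ((q : ℝ) * (2 * Real.pi ^ 2) - (r : ℝ)) := by
      rw [hkR]
      push_cast
      ring
    rw [e]
    refine (abs_add_le _ _).trans ?_
    rw [abs_neg, abs_mul]
    have hM0 : (0 : ℝ) ≤ 2 * M := by positivity
    rw [abs_of_nonneg hM0]
    have h1 : 2 * (M : ℝ) * |(q : ℝ) * (2 * Real.pi ^ 2) - (r : ℝ)| ≤ ε / 2 := by
      have h2 : 2 * (M : ℝ) * |(q : ℝ) * (2 * Real.pi ^ 2) - (r : ℝ)| ≤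
          2 * (M : ℝ) * (1 / (((n0.succ : ℕ) : ℝ) + 1)) :=
        mul_le_mul_of_nonneg_left hq hM0
      refine h2.trans ?_
      have h3 : 4 * (M : ℝ) < n0 * ε := by
        rwa [div_lt_iff₀ hε] at hn0
      have h4 : (0 : ℝ) < ((n0.succ : ℕ) : ℝ) + 1 := by positivity
      rw [mul_one_div, div_le_iff₀ h4]
      push_cast
      nlinarith
    linarith
end Pool.Agent.BEJ.H69
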